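import Pool.Agent.Y17.N.Defs3

/-!
# Twists of `X_0(14)` by `- n`: any number of doubly inert primes

Project Z17G. The split primes (`Sp`) are the primes `p = 1 mod 8` which are squares modulo `7`, the
doubly inert primes (`In`) are the primes `r = 3, 5 mod 8` which are not squares modulo `7`. Here `A` is a
finite set of such primes different from `3`; `sp A`, `i3 A`, `i5 A` are the elements which are
`1`, `3`, `5` modulo `8`. The norms which occur are `3 pr A` with `A` of type `0` and `pr A` with `A` of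
type `1` (the type is the parity of the number of elements of `i3 A`, the number of elements of `i5 A` is
always even).
-/

set_option autoImplicit false

namespace Pool.Agent.Y17.G

open Finset Matrix
open Pool.Agent.Z700 (V3 vec fac pr Ln n0 ep Yd lres xres od)
open Pool.Agent.Y17.N (Sp g0 t0 SB eQ)

noncomputable section

/-- the doubly inert primes -/
def In (r : ℕ) : Prop := r.Prime ∧ (r % 8 = 3 ∨ r % 8 = 5) ∧ (r % 7 = 3 ∨ r % 7 = 5 ∨ r % 7 = 6)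

/-- the split primes of a set -/
def sp (D : Finset ℕ) : Finset ℕ := D.filter fun p => p % 8 = 1

/-- the inert primes of a set -/
def inn (D : Finset ℕ) : Finset ℕ := D.filter fun p => ¬ p % 8 = 1

/-- the primes `3 mod 8` of a set -/
def i3 (D : Finset ℕ) : Finset ℕ := D.filter fun p => p % 8 = 3

/-- the primes `5 mod 8` of a set -/
def i5 (D : Finset ℕ) : Finset ℕ := D.filter fun p => p % 8 = 5

/-- the class of sets -/
def Cl (A : Finset ℕ) : Prop := (∀ p ∈ A, Sp p ∨ In p) ∧ 3 ∉ A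

/-- the type of a set -/
def Ty (k : ℕ) (D : Finset ℕ) : Prop := (i3 D).card % 2 = k ∧ (i5 D).card % 2 = 0

instance (k : ℕ) (D : Finset ℕ) : Decidable (Ty k D) := by
  unfold Ty; infer_instance

/-- the subsets of type `k` -/
def adm (k : ℕ) (A : Finset ℕ) : Finset (Finset ℕ) := A.powerset.filter fun D => Ty k D

/-- the number of factors two in the sum over the genus characters -/
def ex (A : Finset ℕ) : ℕ := (sp A).card + ((i3 A).card - 1) + ((i5 A).card - 1)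

/-- a square root of `p` or of `- p` modulo `7` -/
def s7 (p : ℕ) : ZMod 7 :=
  if p % 7 = 1 ∨ p % 7 = 6 then 1 else if p % 7 = 2 ∨ p % 7 = 5 then 3 else 2

/-- a square root of `± pr D` modulo `7` -/
def bt (D : Finset ℕ) : ZMod 7 := ∏ p ∈ D, s7 p

/-- the diagonal part coming from the inert primes -/
def ei (D : Finset ℕ) (p : ℕ) : ℤ := ∑ r ∈ inn D, eQ r p

/-- the condition on a character -/
def cnd (A : Finset ℕ) (c : ℕ → ℤ) : Prop := (∀ p ∈ sp A, c p = 1) ∧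
  (∀ r ∈ i3 A, ∀ r' ∈ i3 A, c r = c r') ∧ ∀ r ∈ i5 A, ∀ r' ∈ i5 A, c r = c r'

/-! ### the abstract sums -/

open Classical in
/-- the exponent vectors whose character satisfies the condition -/
def TC {ι : Type} [Fintype ι] [DecidableEq ι] (V : ι → ℕ) (e : ι → ℕ → ℤ) (χ : ℕ → ℤ)
    (A : Finset ℕ) : Finset (ι → ℕ) :=
  (Fintype.piFinset fun i => range (V i + 1)).filter fun x =>
    cnd A fun p => χ p * ∏ i, (e i p) ^ (x i)

/-- ABS1: the sum over the subsets of type `k` -/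
def S_ABS1 : Prop := ∀ (ι : Type) [Fintype ι] [DecidableEq ι] (V : ι → ℕ) (s : ι → ℤ)
  (e : ι → ℕ → ℤ) (χ : ℕ → ℤ) (A : Finset ℕ) (k : ℕ), (k = 0 ∨ (k = 1 ∧ (i3 A).Nonempty)) →
  (∀ p ∈ A, p % 8 = 1 ∨ p % 8 = 3 ∨ p % 8 = 5) → (∀ i, s i = 1 ∨ s i = -1) →
  (∀ i, ∀ p ∈ A, e i p = 1 ∨ e i p = -1) → (∀ p ∈ A, χ p = 1 ∨ χ p = -1) →
  ∃ n : ℤ, ∑ D1 ∈ adm k A, (∏ p ∈ D1, χ p) *
      ∏ i, ∑ j ∈ range (V i + 1), (s i * ∏ p ∈ D1, e i p) ^ j = 2 ^ ex A * n ∧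
      (Odd n ↔ Odd (TC V e χ A).card)

/-- ABS2: the parity of the number of exponent vectors -/
def S_ABS2 : Prop := ∀ (ι : Type) [Fintype ι] [DecidableEq ι] (V : ι → ℕ)
  (e : ι → ℕ → ℤ) (A : Finset ℕ), (∀ p ∈ A, p % 8 = 1 ∨ p % 8 = 3 ∨ p % 8 = 5) →
  (∀ i, ∀ p ∈ A, e i p = 1 ∨ e i p = -1) → cnd A (fun p => ∏ i, (e i p) ^ (V i)) →
  (Odd (TC V e (fun _ => 1) A).card ↔
    ((∀ i, Even (V i)) ∧ cnd A fun p => ∏ i, (e i p) ^ (V i / 2)))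

/-- ABS3: two characters with the same number of exponent vectors -/
def S_ABS3 : Prop := ∀ (ι : Type) [Fintype ι] [DecidableEq ι] (V : ι → ℕ)
  (e : ι → ℕ → ℤ) (χ χ' : ℕ → ℤ) (A : Finset ℕ), (∀ p ∈ A, p % 8 = 1 ∨ p % 8 = 3 ∨ p % 8 = 5) →
  (∀ i, ∀ p ∈ A, e i p = 1 ∨ e i p = -1) → (∀ p ∈ A, χ p = 1 ∨ χ p = -1) →
  (∀ p ∈ A, χ' p = 1 ∨ χ' p = -1) → cnd A (fun p => χ p * χ' p * ∏ i, (e i p) ^ (V i)) →
  (TC V e χ A).card = (TC V e χ' A).card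

/-! ### the sums over the genus characters -/

/-- the condition on `y` -/
def Cond (y : ℤ) (A : Finset ℕ) : Prop := cnd A fun p => jacobiSym y p

/-- GENb3G: the sum over all factorizations for a fixed `b`, norms `3 pr D1`, `3 pr D2` -/
def S_GENb3G : Prop := ∀ A : Finset ℕ, Cl A → Ty 0 A → A.Nonempty → ∀ b : ℤ, Odd b →
  ∀ D : ℕ, 0 < D → (D : ℤ) = 9 * (pr A : ℤ) - b ^ 2 → Odd (D.factorization 2) →
  ∃ n : ℤ, ∑ D1 ∈ adm 0 A, ∏ l ∈ (D.primeFactors.erase 2).erase 7, fac (3 * pr D1) D l =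
      2 ^ ex A * n ∧
    (Odd (D.factorization 7) →
      (Odd n ↔ (¬ (3 : ℤ) ∣ b ∧ ∃ y : ℕ, od D = y ^ 2 ∧ Cond y A)))

/-- GENbQG: the sum over all factorizations for a fixed `b`, norms `pr D1`, `3 pr D2` -/
def S_GENbQG : Prop := ∀ A : Finset ℕ, Cl A → Ty 1 A → ∀ b : ℤ, Odd b →
  ∀ D : ℕ, 0 < D → (D : ℤ) = 3 * (pr A : ℤ) - b ^ 2 → Odd (D.factorization 2) →
  ∃ n : ℤ, ∑ D1 ∈ adm 1 A, ∏ l ∈ (D.primeFactors.erase 2).erase 7, fac (pr D1) D l =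
      2 ^ ex A * n ∧
    (Odd (D.factorization 7) → (Odd n ↔ ∃ y : ℕ, od D = y ^ 2 ∧ Cond y A))

open Classical in
/-- the representations of `9 pr A` by `b² + 14 y²` which remain, `b = ρ` modulo `7` -/
def FixR (ρ : ZMod 7) (A : Finset ℕ) : Finset ℤ :=
  (Ioo (-(9 * (pr A : ℤ))) (9 * (pr A : ℤ))).filter fun b : ℤ =>
    b % 4 = 1 ∧ (b : ZMod 7) = ρ ∧ ¬ (3 : ℤ) ∣ b ∧
    ∃ y ∈ range (9 * pr A), 9 * (pr A : ℤ) = b ^ 2 + 14 * (y : ℤ) ^ 2 ∧ Cond y A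

/-- GEN3G: the sum over all factorizations, norms `3 pr D1`, `3 pr D2` -/
def S_GEN3G : Prop := ∀ A : Finset ℕ, Cl A → Ty 0 A → A.Nonempty → ∃ N : ℤ,
  ∑ D1 ∈ adm 0 A, SB (3 * pr D1) (3 * pr (A \ D1)) (-(4 * bt A)) 1 = 2 ^ ex A * N ∧
  (Odd N ↔ Odd (FixR (-(4 * bt A)) A).card)

open Classical in
/-- the representations of `3 pr A` by `b² + 14 y²` which remain -/
def FixT (A : Finset ℕ) : Finset ℤ :=
  (Ioo (-(3 * (pr A : ℤ))) (3 * (pr A : ℤ))).filter fun b : ℤ =>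
    (b : ZMod 7) = -(2 * bt A) ∧
    ∃ y ∈ range (3 * pr A), 3 * (pr A : ℤ) = b ^ 2 + 14 * (y : ℤ) ^ 2 ∧ Cond y A

/-- GENQG: the sum over all factorizations, norms `pr D1`, `3 pr D2` -/
def S_GENQG : Prop := ∀ A : Finset ℕ, Cl A → Ty 1 A → ∃ N : ℤ,
  ∑ D1 ∈ adm 1 A, (SB (pr D1) (3 * pr (A \ D1)) (-(2 * bt A)) (-1) -
    SB (pr D1) (3 * pr (A \ D1)) (-(2 * bt A)) 1) = 2 ^ ex A * N ∧
  (Odd N ↔ Odd (FixT A).card)

/-! ### the representations by `b² + 14 y²` -/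

/-- the normalized representations of `m pr A` by `b² + 14 y²`, `m = 3` or `m = 9` -/
def Sol (m : ℕ) (A : Finset ℕ) : Set (ℤ × ℤ) := {s |
  (m : ℤ) * (pr A : ℤ) = s.1 ^ 2 + 14 * s.2 ^ 2 ∧ s.1 % 4 = 1 ∧ ¬ (3 : ℤ) ∣ s.1 ∧
    (3 : ℤ) ∣ s.2 - s.1}

/-- the admissible pairs of a factor `m` and a set -/
def MA (m : ℕ) (A : Finset ℕ) : Prop := Cl A ∧ ((m = 9 ∧ Ty 0 A) ∨ (m = 3 ∧ Ty 1 A))

/-- the primes at which two representations differ -/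
def Fl (A : Finset ℕ) (s s' : ℤ × ℤ) : Finset ℕ :=
  A.filter fun l : ℕ => (l : ℤ) ∣ s.1 * s'.2 + s'.1 * s.2

/-- SYM: the symbols of two representations -/
def S_SYM : Prop := ∀ (m : ℕ) (A : Finset ℕ), MA m A → ∀ s ∈ Sol m A, ∀ s' ∈ Sol m A,
  (∀ l ∈ A, ¬ (l : ℤ) ∣ s.2 ∧ ¬ (l : ℤ) ∣ s'.2 ∧
    (l ∉ Fl A s s' ↔ (l : ℤ) ∣ s.1 * s'.2 - s'.1 * s.2)) ∧
  Even (inn (Fl A s s')).card ∧
  ∃ δ : ℤ, (δ = 2 ∨ δ = 14) ∧
    (∀ l ∈ A, l ∉ Fl A s s' →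
      jacobiSym (s.2 * s'.2) l = jacobiSym (-7 * δ * (pr (Fl A s s') : ℤ)) l) ∧
    (∀ l ∈ Fl A s s',
      jacobiSym (s.2 * s'.2) l = jacobiSym (7 * δ * ((m : ℤ) * (pr (A \ Fl A s s') : ℤ))) l) ∧
    jacobiSym (s.1 * s'.1) 7 = if δ = 14 then -1 else 1

/-- UNI: a representation is determined by the roots of `-14` it defines -/
def S_UNI : Prop := ∀ (m : ℕ) (A : Finset ℕ), MA m A → ∀ s ∈ Sol m A, ∀ s' ∈ Sol m A,
  (∀ l ∈ A, (l : ℤ) ∣ s.1 * s'.2 - s'.1 * s.2) → s = s'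

/-- TOT: the total flip changes the sign at `7` -/
def S_TOT : Prop := ∀ A : Finset ℕ, MA 9 A → ∀ s ∈ Sol 9 A, ∀ s' ∈ Sol 9 A,
  (∀ l ∈ A, (l : ℤ) ∣ s.1 * s'.2 + s'.1 * s.2) → jacobiSym (s.1 * s'.1) 7 = -1

/-- PRO: the product formula -/
def S_PRO : Prop := ∀ A : Finset ℕ, MA 9 A → ∀ s ∈ Sol 9 A, ∏ l ∈ A, jacobiSym s.2 l = 1

/-- FLIP: existence of the flips -/
def S_FLIP : Prop := ∀ (m : ℕ) (A : Finset ℕ), MA m A → ∀ s ∈ Sol m A, ∀ T ⊆ A,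
  Even (inn T).card → ∃ s' ∈ Sol m A, (∀ l ∈ T, (l : ℤ) ∣ s.1 * s'.2 + s'.1 * s.2) ∧
    ∀ l ∈ A, l ∉ T → (l : ℤ) ∣ s.1 * s'.2 - s'.1 * s.2

/-- NE: existence of representations -/
def S_NE : Prop := ∀ A : Finset ℕ, Cl A → Ty 0 A → (inn A).card = 2 → (Sol 9 A).Nonempty

/-- F2: the parity of the number of remaining representations, two inert primes -/
def S_F2 : Prop := ∀ A : Finset ℕ, Cl A → Ty 0 A → (inn A).card = 2 → ∀ ρ : ZMod 7,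
  ρ ^ 2 = 2 * (pr A : ZMod 7) → (Odd (FixR ρ A).card ↔ Odd (Yd lres (ei A) (sp A)))

/-- F4: two inert primes of each kind -/
def S_F4 : Prop := ∀ A : Finset ℕ, Cl A → (i3 A).card = 2 → (i5 A).card = 2 → ∀ ρ : ZMod 7,
  Even (FixR ρ A).card

/-- FQ: one inert prime `3 mod 8` and two inert primes `5 mod 8` -/
def S_FQ : Prop := ∀ A : Finset ℕ, Cl A → (i3 A).card = 1 → (i5 A).card = 2 → Even (FixT A).card

/-! ### the parity of the unweighted sums -/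

/-- RHG: divisibility of the number of vectors (genus theory) -/
def S_RHG : Prop := ∀ n : ℕ, Squarefree n → n % 8 = 3 →
  ∃ h : ℤ, ((vec (n : ℤ)).card : ℤ) = 8 * 2 ^ (n.primeFactors.card - 1) * h

/-- IND3G: the norms `3 pr A` -/
def S_IND3G : Prop := ∀ A : Finset ℕ, Cl A → Ty 0 A →
  ∃ y : ℤ, g0 ((3 * pr A : ℕ) : ℤ) (2 * bt A) = 2 ^ ((sp A).card + (inn A).card / 2) * y ∧
    (Odd y ↔ Odd (Yd lres (fun p => xres p + eQ 3 p + ei A p) (sp A)))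

/-- INDQG: the norms `pr A` -/
def S_INDQG : Prop := ∀ A : Finset ℕ, Cl A → Ty 1 A →
  ∃ y : ℤ, g0 ((pr A : ℕ) : ℤ) (bt A) = 2 ^ ((sp A).card + (inn A).card / 2) * y ∧
    (Odd y ↔ Odd (Yd lres (fun p => xres p + ei A p) (sp A)))

end

end Pool.Agent.Y17.G
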