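import Pool.Agent.Y17.G.Main
import Pool.Agent.Y17.N.Fin
import Pool.Agent.Y948.G.Abs
import Pool.Agent.Y363.Z17G.GENb3
import Pool.Agent.Z141.G.GENbQ
import Pool.Agent.Y356.ZG.Gen3G
import Pool.Agent.Y614.Z17G.Genq
import Pool.Agent.Y37.Z17G.Sym
import Pool.Agent.Y43.Z17G.Flip
import Pool.Agent.Y474.Z17.F2
import Pool.Agent.Y528.ZG.F4
import Pool.Agent.Y179.G.Rhg
import Pool.Agent.Y681.N17.G3
import Pool.Agent.Y815.G.Indq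

/-!
# Twists of `X_0(14)` by `- n`, any number of doubly inert primes: the parts

Collection of the parts of the proof.
-/

set_option autoImplicit false

namespace Pool.Agent.Y17.G

theorem f_ABS1 : S_ABS1 := Pool.Agent.Y948.G.t_ABS1
theorem f_ABS2 : S_ABS2 := Pool.Agent.Y948.G.t_ABS2
theorem f_ABS3 : S_ABS3 := Pool.Agent.Y948.G.t_ABS3
theorem f_GENb3G : S_GENb3G := Pool.Agent.Y363.Z17G.t_GENb3G f_ABS1 f_ABS2 f_ABS3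
theorem f_GENbQG : S_GENbQG := Pool.Agent.Z141.G.t_GENbQG f_ABS1 f_ABS2
theorem f_GEN3G : S_GEN3G := Pool.Agent.Y356.ZG.t_GEN3G f_GENb3G
theorem f_GENQG : S_GENQG := Pool.Agent.Y614.Z17G.t_GENQG f_GENbQG
theorem f_SYM : S_SYM := Pool.Agent.Y37.Z17G.t_SYM
theorem f_UNI : S_UNI := Pool.Agent.Y37.Z17G.t_UNI
theorem f_TOT : S_TOT := Pool.Agent.Y37.Z17G.t_TOT
theorem f_PRO : S_PRO := Pool.Agent.Y37.Z17G.t_PRO
theorem f_FLIP : S_FLIP := Pool.Agent.Y43.Z17G.t_FLIP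
theorem f_NE : S_NE := Pool.Agent.Y43.Z17G.t_NE
theorem f_F2 : S_F2 := Pool.Agent.Y474.Z17.t_F2 f_SYM f_UNI f_TOT f_PRO f_FLIP f_NE
theorem f_F4 : S_F4 := Pool.Agent.Y528.ZG.t_F4 f_SYM f_UNI f_TOT f_PRO f_FLIP
theorem f_FQ : S_FQ := Pool.Agent.Y528.ZG.t_FQ f_SYM f_UNI f_FLIP
theorem f_RHG : S_RHG := Pool.Agent.Y179.G.t_RHG Pool.Agent.Y17.N.f_HALF
theorem f_IND3G : S_IND3G := Pool.Agent.Y681.N17G.t_IND3G Pool.Agent.Y17.N.f_BIL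
  Pool.Agent.Y17.N.f_T8 Pool.Agent.Y17.N.f_IND3S f_RHG f_GEN3G f_F2 f_F4
theorem f_INDQG : S_INDQG := Pool.Agent.Y815.G.t_INDQG Pool.Agent.Y17.N.f_BIL f_IND3G f_GENQG
  f_FQ Pool.Agent.Y17.N.f_INDQS

end Pool.Agent.Y17.G
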