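import Pool.Agent.Y17.G.Defs
import Pool.Agent.Y17.N.Main

/-!
# Twists of `X_0(14)` by `- n`, any number of doubly inert primes: assembly
-/

set_option autoImplicit false
set_option linter.style.haveILetI false

open Finset

namespace Pool.Agent.Y17.G

open Pool.Agent.Z700 (pr Yd lres xres xrt vec sq7)
open Pool.Agent.Y17.N (Sp Qr g0 t0 SB eQ)
open Pool.Agent.Y687 (WB cnt SS SS_facts cnt_E14 cnt_twistD)
open Pool.Agent.Y687.N (RtZ xrZ Def RtZ_iff HypK Gn)
open Pool.Agent.W97.MT (ap E14)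

theorem cast7 (p : ℕ) : (p : ZMod 7) = ((p % 7 : ℕ) : ZMod 7) := by rw [ZMod.natCast_mod]

theorem s7_sp {p : ℕ} (hp : Sp p) : s7 p ^ 2 = (p : ZMod 7) := by
  rw [cast7 p]
  unfold s7
  rcases hp.2.2 with h1 | h1 | h1 <;> rw [h1] <;> decide

theorem s7_in {p : ℕ} (hp : In p) : s7 p ^ 2 = -(p : ZMod 7) := by
  rw [cast7 p]
  unfold s7
  rcases hp.2.2 with h1 | h1 | h1 <;> rw [h1] <;> decide

theorem s7_ne (p : ℕ) : s7 p ≠ 0 := by
  unfold s7
  split_ifs <;> decide

theorem bt_ne (B : Finset ℕ) : bt B ≠ 0 := by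
  haveI : Fact (Nat.Prime 7) := ⟨by norm_num⟩
  unfold bt
  exact Finset.prod_ne_zero_iff.2 fun p _ => s7_ne p

theorem pr_insert {a : ℕ} {B : Finset ℕ} (h : a ∉ B) : pr (insert a B) = a * pr B := by
  unfold Pool.Agent.Z700.pr; rw [Finset.prod_insert h]

theorem in_facts {p : ℕ} (h : Sp p ∨ In p) : p.Prime ∧ p ≠ 2 ∧ p ≠ 7 ∧ Odd p ∧
    (p % 8 = 1 ∨ p % 8 = 3 ∨ p % 8 = 5) := by
  rcases h with h | h
  · obtain ⟨h1, h2, h3⟩ := h
    refine ⟨h1, by rintro rfl; omega, by rintro rfl; omega, Nat.odd_iff.2 (by omega), Or.inl h2⟩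
  · obtain ⟨h1, h2, h3⟩ := h
    refine ⟨h1, ?_, ?_, Nat.odd_iff.2 (by omega), Or.inr h2⟩
    · rintro rfl; omega
    · rintro rfl; omega

theorem bt_sq {B : Finset ℕ} (hB : ∀ p ∈ B, Sp p ∨ In p) :
    bt B ^ 2 = (-1) ^ (inn B).card * (pr B : ZMod 7) := by
  classical
  induction B using Finset.induction_on with
  | empty => simp [bt, pr, inn]
  | insert a B ha ih =>
    have h1 := ih fun p hp => hB p (Finset.mem_insert_of_mem hp)
    have e1 : bt (insert a B) = s7 a * bt B := by unfold bt; rw [Finset.prod_insert ha]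
    rw [e1, mul_pow, h1, pr_insert ha]
    rcases hB a (Finset.mem_insert_self _ _) with h | h
    · have e2 : inn (insert a B) = inn B := by
        unfold inn; rw [Finset.filter_insert, if_neg (by rw [not_not]; exact h.2.1)]
      rw [e2, s7_sp h]; push_cast; ring
    · have e2 : inn (insert a B) = insert a (inn B) := by
        unfold inn
        rw [Finset.filter_insert, if_pos]
        rcases h.2.1 with h3 | h3 <;> omega
      have e3 : a ∉ inn B := fun h' => ha (Finset.mem_filter.1 h').1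
      rw [e2, Finset.card_insert_of_notMem e3, s7_in h, pow_succ]; push_cast; ring

theorem pr_mod8 {B : Finset ℕ} (hB : ∀ p ∈ B, Sp p ∨ In p) :
    pr B % 8 = (3 ^ (i3 B).card * 5 ^ (i5 B).card) % 8 := by
  classical
  induction B using Finset.induction_on with
  | empty => simp [pr, i3, i5]
  | insert a B ha ih =>
    have h1 := ih fun p hp => hB p (Finset.mem_insert_of_mem hp)
    rw [pr_insert ha, Nat.mul_mod, h1]
    have h3n : a ∉ i3 B := fun h' => ha (Finset.mem_filter.1 h').1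
    have h5n : a ∉ i5 B := fun h' => ha (Finset.mem_filter.1 h').1
    rcases (in_facts (hB a (Finset.mem_insert_self _ _))).2.2.2.2 with h | h | h
    · have e2 : i3 (insert a B) = i3 B := by
        unfold i3; rw [Finset.filter_insert, if_neg (by omega)]
      have e3 : i5 (insert a B) = i5 B := by
        unfold i5; rw [Finset.filter_insert, if_neg (by omega)]
      rw [e2, e3, h, one_mul, Nat.mod_mod]
    · have e2 : i3 (insert a B) = insert a (i3 B) := by
        unfold i3; rw [Finset.filter_insert, if_pos (by omega)]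
      have e3 : i5 (insert a B) = i5 B := by
        unfold i5; rw [Finset.filter_insert, if_neg (by omega)]
      rw [e2, e3, Finset.card_insert_of_notMem h3n, h, pow_succ, Nat.mul_mod_mod]
      congr 1
      ring
    · have e2 : i3 (insert a B) = i3 B := by
        unfold i3; rw [Finset.filter_insert, if_neg (by omega)]
      have e3 : i5 (insert a B) = insert a (i5 B) := by
        unfold i5; rw [Finset.filter_insert, if_pos (by omega)]
      rw [e2, e3, Finset.card_insert_of_notMem h5n, h, pow_succ, Nat.mul_mod_mod]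
      congr 1
      ring

theorem inn_card {B : Finset ℕ} (hB : ∀ p ∈ B, Sp p ∨ In p) :
    (inn B).card = (i3 B).card + (i5 B).card := by
  classical
  have e : inn B = i3 B ∪ i5 B := by
    unfold inn i3 i5
    rw [← Finset.filter_or]
    refine Finset.filter_congr fun p hp => ?_
    have := (in_facts (hB p hp)).2.2.2.2
    omega
  rw [e, Finset.card_union_of_disjoint]
  unfold i3 i5
  rw [Finset.disjoint_filter]
  intro p _ h1 h2
  omega

theorem inn_odd {B : Finset ℕ} (hB : ∀ p ∈ B, Sp p ∨ In p) (ht : Ty 1 B) : Odd (inn B).card := by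
  rw [inn_card hB, Nat.odd_iff]
  have h1 := ht.1
  have h2 := ht.2
  omega

theorem pr_three {B : Finset ℕ} (hB : ∀ p ∈ B, Sp p ∨ In p) (ht : Ty 1 B) : pr B % 8 = 3 := by
  rw [pr_mod8 hB]
  obtain ⟨a, ha⟩ : ∃ a, (i3 B).card = 2 * a + 1 := ⟨(i3 B).card / 2, by have := ht.1; omega⟩
  obtain ⟨b, hb⟩ : ∃ b, (i5 B).card = 2 * b := ⟨(i5 B).card / 2, by have := ht.2; omega⟩
  rw [ha, hb, pow_succ, pow_mul, pow_mul, Nat.mul_mod, Nat.mul_mod (_ ^ a), Nat.pow_mod,
    Nat.pow_mod (5 ^ 2)]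
  norm_num

theorem pr_sqf {B : Finset ℕ} (hB : ∀ p ∈ B, Sp p ∨ In p) : Squarefree (pr B) := by
  unfold Pool.Agent.Z700.pr
  exact Pool.Agent.Y687.squarefree_prod fun r hr => (in_facts (hB r hr)).1

theorem pr_seven {B : Finset ℕ} (hB : ∀ p ∈ B, Sp p ∨ In p) : ¬ 7 ∣ pr B := by
  intro h
  unfold Pool.Agent.Z700.pr at h
  obtain ⟨p, hp, h7⟩ := (Nat.prime_seven.prime.dvd_finsetProd_iff _).1 h
  exact (in_facts (hB p hp)).2.2.1 ((Nat.prime_dvd_prime_iff_eq Nat.prime_seven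
    (in_facts (hB p hp)).1).1 h7).symm

theorem bt_one {B : Finset ℕ} (hB : ∀ p ∈ B, Sp p ∨ In p) (ht : Ty 1 B) :
    bt B ^ 2 = -((pr B : ℕ) : ZMod 7) := by
  rw [bt_sq hB, (inn_odd hB ht).neg_one_pow]
  ring

theorem jac_seven {B : Finset ℕ} (hB : ∀ p ∈ B, Sp p ∨ In p) (ht : Ty 1 B) :
    jacobiSym 7 (pr B) = 1 := by
  have h8 := pr_three hB ht
  have hb := bt_one hB ht
  have hn := bt_ne B
  have key : ∀ x : ZMod 7, ∀ k : ℕ, k < 7 → x ≠ 0 → x ^ 2 = -((k : ℕ) : ZMod 7) →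
      k = 3 ∨ k = 5 ∨ k = 6 := by decide
  have n7 : pr B % 7 = 3 ∨ pr B % 7 = 5 ∨ pr B % 7 = 6 :=
    key (bt B) (pr B % 7) (Nat.mod_lt _ (by norm_num)) hn (by rw [hb, ← cast7])
  have h1 := jacobiSym.quadratic_reciprocity_three_mod_four (a := 7) (b := pr B) (by norm_num)
    (by omega)
  push_cast at h1 ⊢
  rw [h1]
  have h2 : jacobiSym ((pr B : ℕ) : ℤ) 7 = jacobiSym (((pr B % 7 : ℕ)) : ℤ) 7 := by
    refine jacobiSym.mod_left' ?_
    push_cast
    rw [Int.emod_emod_of_dvd _ (dvd_refl _)]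
  rw [h2]
  rcases n7 with h3 | h3 | h3 <;> rw [h3] <;> norm_num

/-- the parity of the unweighted sums, `3` allowed -/
theorem par (h3 : S_IND3G) (hq : S_INDQG) {B : Finset ℕ} (hB : ∀ p ∈ B, Sp p ∨ In p)
    (ht : Ty 1 B) :
    ∃ y : ℤ, g0 ((pr B : ℕ) : ℤ) (bt B) = 2 ^ ((sp B).card + (inn B).card / 2) * y ∧
      (Odd y ↔ Odd (Yd lres (fun p => xres p + ei B p) (sp B))) := by
  classical
  by_cases h : 3 ∈ B
  · obtain ⟨A, hA⟩ : ∃ A, A = B.erase 3 := ⟨_, rfl⟩
    have hn : 3 ∉ A := by rw [hA]; exact Finset.notMem_erase _ _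
    have hBA : B = insert 3 A := by rw [hA, Finset.insert_erase h]
    have hcl : Cl A := ⟨fun p hp => hB p (by rw [hBA]; exact Finset.mem_insert_of_mem hp), hn⟩
    have e3 : i3 B = insert 3 (i3 A) := by
      rw [hBA]; unfold i3; rw [Finset.filter_insert, if_pos (by norm_num)]
    have e5 : i5 B = i5 A := by
      rw [hBA]; unfold i5; rw [Finset.filter_insert, if_neg (by norm_num)]
    have es : sp B = sp A := by
      rw [hBA]; unfold sp; rw [Finset.filter_insert, if_neg (by norm_num)]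
    have en : inn B = insert 3 (inn A) := by
      rw [hBA]; unfold inn; rw [Finset.filter_insert, if_pos (by norm_num)]
    have n3 : 3 ∉ i3 A := fun h' => hn (Finset.mem_filter.1 h').1
    have nn : 3 ∉ inn A := fun h' => hn (Finset.mem_filter.1 h').1
    have hty : Ty 0 A := by
      have k1 := ht.1
      have k2 := ht.2
      rw [e3, Finset.card_insert_of_notMem n3] at k1
      rw [e5] at k2
      exact ⟨by omega, k2⟩
    obtain ⟨y, h1, h2⟩ := h3 A hcl hty
    have hc : (inn A).card % 2 = 0 := by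
      rw [inn_card hcl.1]
      have k1 := hty.1
      have k2 := hty.2
      omega
    refine ⟨y, ?_, ?_⟩
    · have e1 : pr B = 3 * pr A := by rw [hBA, pr_insert hn]
      have e2 : bt B = 2 * bt A := by
        rw [hBA]; unfold bt; rw [Finset.prod_insert hn]
        congr 1
      rw [e1, e2, h1, es, en, Finset.card_insert_of_notMem nn]
      congr 3
      omega
    · rw [h2, es]
      have : (fun p => xres p + eQ 3 p + ei A p) = fun p => xres p + ei B p := by
        funext p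
        unfold ei
        rw [en, Finset.sum_insert nn]
        ring
      rw [this]
  · exact hq B ⟨hB, h⟩ ht

/-! ### the diagonal -/

theorem par_iff {S : Finset ℕ} {p : ℕ} (h : ∀ r ∈ S, jacobiSym r p = 1 ∨ jacobiSym r p = -1) :
    (jacobiSym (pr S : ℤ) p = 1 ∧ Even (∑ r ∈ S, eQ r p)) ∨
      (jacobiSym (pr S : ℤ) p = -1 ∧ Odd (∑ r ∈ S, eQ r p)) := by
  classical
  induction S using Finset.induction_on with
  | empty => left; simp [pr]
  | insert a S ha ih =>
    have h1 := ih fun r hr => h r (Finset.mem_insert_of_mem hr)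
    have e : ((pr (insert a S) : ℕ) : ℤ) = (a : ℤ) * (pr S : ℤ) := by
      rw [pr_insert ha]; push_cast; ring
    rw [e, jacobiSym.mul_left, Finset.sum_insert ha]
    rcases h a (Finset.mem_insert_self _ _) with k | k
    · have e1 : eQ a p = 0 := by unfold eQ; rw [if_neg (by rw [k]; norm_num)]
      rw [k, e1, one_mul, zero_add]
      exact h1
    · have e1 : eQ a p = 1 := by unfold eQ; rw [if_pos k]
      rw [k, e1]
      rcases h1 with ⟨h2, h3⟩ | ⟨h2, h3⟩
      · right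
        rw [h2]
        exact ⟨by norm_num, by rw [add_comm]; exact h3.add_one⟩
      · left
        rw [h2]
        exact ⟨by norm_num, by rw [add_comm]; exact h3.add_one⟩

/-- the diagonal parts agree modulo two, `m = ± pr S` -/
theorem diag_gen {S : Finset ℕ} {p : ℕ} {m : ℤ} (hp : Sp p) (hS : ∀ r ∈ S, In r)
    (hm : m = pr S ∨ m = -(pr S : ℤ)) :
    (m : ZMod p) ≠ 0 ∧ (Odd (xrZ m p) ↔ Odd (xres p + ∑ r ∈ S, eQ r p)) := by
  classical
  haveI : Fact p.Prime := ⟨hp.1⟩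
  have hrp : ∀ r ∈ S, r ≠ p := by
    rintro r hr rfl
    have h1 := (hS r hr).2.1
    have h2 := hp.2.1
    omega
  have hj : ∀ r ∈ S, jacobiSym r p = 1 ∨ jacobiSym r p = -1 := by
    intro r hr
    refine jacobiSym.eq_one_or_neg_one ?_
    rw [Int.gcd_natCast_natCast]
    exact (Nat.coprime_primes (hS r hr).1 hp.1).2 (hrp r hr)
  have hne : ((pr S : ℕ) : ZMod p) ≠ 0 := by
    intro h0
    rw [ZMod.natCast_eq_zero_iff] at h0
    unfold Pool.Agent.Z700.pr at h0
    obtain ⟨r, hr, h1⟩ := (hp.1.prime.dvd_finsetProd_iff _).1 h0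
    exact hrp r hr ((Nat.prime_dvd_prime_iff_eq hp.1 (hS r hr).1).1 h1).symm
  have hm0 : (m : ZMod p) ≠ 0 := by
    rcases hm with rfl | rfl
    · push_cast; exact hne
    · push_cast; exact neg_ne_zero.2 hne
  refine ⟨hm0, ?_⟩
  have h1 := RtZ_iff hp hm0
  have hi : IsSquare (-1 : ZMod p) :=
    (ZMod.exists_sq_eq_neg_one_iff (p := p)).2 (by have := hp.2.1; omega)
  have h2 : IsSquare ((m : ℤ) : ZMod p) ↔ IsSquare (((pr S : ℕ) : ℤ) : ZMod p) := by
    rcases hm with rfl | rfl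
    · rfl
    · have e : (((-(pr S : ℤ) : ℤ)) : ZMod p) = (-1) * ((pr S : ℕ) : ZMod p) := by push_cast; ring
      rw [e, Pool.Agent.Y687.N.isSquare_mul_iff (neg_ne_zero.2 one_ne_zero) hne]
      push_cast
      simp [hi]
  have h3 : IsSquare (((pr S : ℕ) : ℤ) : ZMod p) ↔ jacobiSym (pr S : ℤ) p = 1 := by
    rw [← jacobiSym.legendreSym.to_jacobiSym]
    exact (legendreSym.eq_one_iff p (by push_cast; exact hne)).symm
  rw [h2, h3] at h1
  have hx : xres p = xrt p := (Pool.Agent.Z701.x_eq Pool.Agent.Z700.f_SYM Pool.Agent.Z701.f_DIAG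
    Pool.Agent.Z701.f_IND Pool.Agent.Y655.Z7.t_RTE hp)
  rw [hx]
  have a1 : RtZ m p → xrZ m p = 1 := fun h => by unfold xrZ; exact if_pos h
  have a2 : ¬ RtZ m p → xrZ m p = 0 := fun h => by unfold xrZ; exact if_neg h
  have b1 : Pool.Agent.Y700.Rt p 1 → xrt p = 1 := fun h => by
    unfold Pool.Agent.Z700.xrt; exact if_pos h
  have b2 : ¬ Pool.Agent.Y700.Rt p 1 → xrt p = 0 := fun h => by
    unfold Pool.Agent.Z700.xrt; exact if_neg h
  have h1' : RtZ m p ↔ (Pool.Agent.Y700.Rt p 1 ↔ jacobiSym (pr S : ℤ) p = 1) := h1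
  rcases par_iff hj with ⟨k1, k2⟩ | ⟨k1, k2⟩
  · by_cases k3 : Pool.Agent.Y700.Rt p 1
    · rw [a1 (h1'.2 ⟨fun _ => k1, fun _ => k3⟩), b1 k3]
      refine ⟨fun _ => ?_, fun _ => odd_one⟩
      rw [add_comm]
      exact k2.add_one
    · rw [a2 (fun h => k3 ((h1'.1 h).2 k1)), b2 k3, zero_add]
      exact ⟨fun h => absurd h (by decide), fun h => absurd k2 (Int.not_even_iff_odd.2 h)⟩
  · have k1' : ¬ jacobiSym (pr S : ℤ) p = 1 := by rw [k1]; norm_num
    by_cases k3 : Pool.Agent.Y700.Rt p 1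
    · rw [a2 (fun h => k1' ((h1'.1 h).1 k3)), b1 k3]
      refine ⟨fun h => absurd h (by decide), fun h => ?_⟩
      have := k2.add_one
      rw [add_comm] at this
      exact absurd this (Int.not_even_iff_odd.2 h)
    · rw [a1 (h1'.2 ⟨fun h => absurd h k3, fun h => absurd h k1'⟩), b2 k3, zero_add]
      exact ⟨fun _ => k2, fun _ => odd_one⟩

theorem disj {P S : Finset ℕ} (hP : ∀ p ∈ P, Sp p) (hS : ∀ r ∈ S, In r) : Disjoint P S := by
  rw [Finset.disjoint_left]
  intro a h1 h2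
  have k1 := (hP a h1).2.1
  have k2 := (hS a h2).2.1
  omega

theorem un_facts {P S : Finset ℕ} (hP : ∀ p ∈ P, Sp p) (hS : ∀ r ∈ S, In r) :
    (∀ p ∈ P ∪ S, Sp p ∨ In p) ∧ sp (P ∪ S) = P ∧ inn (P ∪ S) = S ∧ i3 (P ∪ S) = i3 S ∧
      i5 (P ∪ S) = i5 S ∧ pr (P ∪ S) = pr P * pr S := by
  classical
  refine ⟨?_, ?_, ?_, ?_, ?_, ?_⟩
  · intro p hp
    rcases Finset.mem_union.1 hp with h | h
    · exact Or.inl (hP p h)
    · exact Or.inr (hS p h)
  · unfold sp
    rw [Finset.filter_union, Finset.filter_true_of_mem fun p hp => (hP p hp).2.1,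
      Finset.filter_false_of_mem fun r hr => by have := (hS r hr).2.1; omega, Finset.union_empty]
  · unfold inn
    rw [Finset.filter_union, Finset.filter_false_of_mem fun p hp => by
        rw [not_not]; exact (hP p hp).2.1,
      Finset.filter_true_of_mem fun r hr => by have := (hS r hr).2.1; omega, Finset.empty_union]
  · unfold i3
    rw [Finset.filter_union, Finset.filter_false_of_mem fun p hp => by
        have := (hP p hp).2.1; omega, Finset.empty_union]
  · unfold i5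
    rw [Finset.filter_union, Finset.filter_false_of_mem fun p hp => by
        have := (hP p hp).2.1; omega, Finset.empty_union]
  · unfold Pool.Agent.Z700.pr
    exact Finset.prod_union (disj hP hS)

/-- the determinant conditions agree -/
theorem det_gen {P S : Finset ℕ} {m : ℤ} (hP : ∀ p ∈ P, Sp p) (hS : ∀ r ∈ S, In r)
    (hm : m = pr S ∨ m = -(pr S : ℤ)) :
    Odd (Yd lres (xrZ m) P) ↔ Odd (Yd lres (fun p => xres p + ei (P ∪ S) p) P) := by
  refine Pool.Agent.Z701.Yd_mod2 fun p hp => ?_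
  unfold ei
  rw [(un_facts hP hS).2.2.1]
  exact (diag_gen (hP p hp) hS hm).2

theorem neg_gen {P S : Finset ℕ} (hP : ∀ p ∈ P, Sp p) (hS : ∀ r ∈ S, In r) (ht : Ty 1 S) :
    Gn (pr P * pr S) ∧ ¬ 7 ∣ pr P * pr S ∧ jacobiSym 7 (pr P * pr S) = 1 ∧
      Squarefree ((pr P : ℤ) * (-(pr S : ℤ))) ∧ (-(pr S : ℤ)) % 4 = 1 := by
  classical
  obtain ⟨hB, -, -, e3, e5, epr⟩ := un_facts hP hS
  have hty : Ty 1 (P ∪ S) := by unfold Ty; rw [e3, e5]; exact ht
  rw [← epr]
  refine ⟨⟨pr_sqf hB, pr_three hB hty⟩, pr_seven hB, jac_seven hB hty, ?_, ?_⟩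
  · have h1 : Squarefree (((pr (P ∪ S) : ℕ)) : ℤ) := Int.squarefree_natCast.2 (pr_sqf hB)
    have h2 : (pr P : ℤ) * (-(pr S : ℤ)) = -((pr (P ∪ S) : ℕ) : ℤ) := by
      rw [epr]; push_cast; ring
    rw [h2]
    exact fun x hx => h1 x ((dvd_neg).1 hx)
  · have h1 := pr_three (B := S) (fun r hr => Or.inr (hS r hr)) ht
    omega

/-- the definite side -/
theorem exists_gen (hb : Pool.Agent.Y17.N.S_BIL) (ht8 : Pool.Agent.Y17.N.S_T8) (h3 : S_IND3G)
    (hq : S_INDQG) {P S : Finset ℕ} (hP : ∀ p ∈ P, Sp p) (hS : ∀ r ∈ S, In r) (ht : Ty 1 S) :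
    ∃ g y : ℤ, g = 2 ^ (P.card + S.card / 2) * y ∧
      (Odd y ↔ Odd (Yd lres (xrZ (-(pr S : ℤ))) P)) ∧ Def (pr P * pr S) g := by
  classical
  obtain ⟨hB, esp, einn, e3, e5, epr⟩ := un_facts hP hS
  have hty : Ty 1 (P ∪ S) := by unfold Ty; rw [e3, e5]; exact ht
  obtain ⟨y, h1, h2⟩ := par h3 hq hB hty
  rw [esp, einn] at h1
  rw [esp, ← det_gen hP hS (Or.inr rfl)] at h2
  refine ⟨_, y, h1, h2, ?_⟩
  rw [← epr]
  exact Pool.Agent.Y17.N.def_of hb ht8 (pr_sqf hB) (pr_three hB hty) (pr_seven hB) (bt_ne _)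
    (bt_one hB hty)

/-- the hypotheses of the descent -/
theorem hyp_gen {P S : Finset ℕ} (hP : ∀ p ∈ P, Sp p) (hS : ∀ r ∈ S, In r) (ht : Ty 1 S)
    (hodd : Odd (Yd lres (xrZ (-(pr S : ℤ))) P)) : HypK (-(pr S : ℤ)) P := by
  obtain ⟨-, -, -, hsqf, h4⟩ := neg_gen hP hS ht
  refine ⟨h4, hP, hsqf, ?_, hodd⟩
  intro r hr hrq
  have h1 : (r : ℤ) ∣ (pr S : ℤ) := (dvd_neg).1 hrq
  have h2 : r ∣ pr S := by exact_mod_cast h1
  unfold Pool.Agent.Z700.pr at h2
  obtain ⟨q, hq, h3⟩ := (hr.prime.dvd_finsetProd_iff _).1 h2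
  have h4 : r = q := (Nat.prime_dvd_prime_iff_eq hr (hS q hq).1).1 h3
  subst h4
  haveI : Fact r.Prime := ⟨hr⟩
  have hI : Pool.Agent.Y687.InertT r := hS r hq
  have hf := in_facts (Or.inr (hS r hq))
  exact ⟨hf.2.1, hf.2.2.1, hI.nsq7, hI.nsq2⟩

/-- **the rank part of BSD for the general negative twists, from the definite side** -/
theorem WB_gen {P S : Finset ℕ} (hP : ∀ p ∈ P, Sp p) (hS : ∀ r ∈ S, In r) (ht : Ty 1 S)
    (hodd : Odd (Yd lres (xrZ (-(pr S : ℤ))) P)) (hg : ∃ g : ℤ, g ≠ 0 ∧ Def (pr P * pr S) g) :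
    WB ((pr P : ℤ) * (-(pr S : ℤ))) := by
  obtain ⟨hGn, h7, hj, hsqf, h4⟩ := neg_gen hP hS ht
  have H := hyp_gen hP hS ht hodd
  refine ⟨?_, H.finite_set⟩
  obtain ⟨t, sp, sm, Op, Om, hOp, hOm, htt, hs, hnegp, hperp, hsm, h13⟩ :=
    Pool.Agent.Y687.N.exists_symbM
  obtain ⟨g, hg0, hg⟩ := hg
  have habs : ((pr P : ℤ) * (-(pr S : ℤ))).natAbs = pr P * pr S := by
    rw [Int.natAbs_mul, Int.natAbs_neg, Int.natAbs_natCast, Int.natAbs_natCast]
  have hv := Pool.Agent.Y687.N.SS_value Pool.Agent.Y687.N.f_FORM Pool.Agent.Y687.N.f_LVL2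
    Pool.Agent.Y687.N.f_C1B Pool.Agent.Y687.N.f_C21 Pool.Agent.Y687.N.f_C27
    Pool.Agent.Y687.N.f_CARD hGn h7 hj hsm hg
  have hne : SS t (pr P * pr S) (pr P * pr S) ≠ 0 := by
    have h1 : SS t (pr P * pr S) (pr P * pr S) =
        SS sp (pr P * pr S) (pr P * pr S) + SS sm (pr P * pr S) (pr P * pr S) := by
      unfold SS
      rw [← Finset.sum_add_distrib]
      refine Finset.sum_congr rfl fun a _ => ?_
      rw [htt]; ring
    rw [h1, Pool.Agent.Y687.N.SS_even hGn hnegp hperp, zero_add, hv]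
    exact mul_ne_zero (mul_ne_zero (by norm_num) h13) (pow_ne_zero 2 hg0)
  have h8 := hGn.h8
  refine Pool.Agent.Y687.exists_f_neD _ hsqf ?_ ?_ ?_ hOp hOm htt hs (by rw [habs]; exact hne)
  · rw [habs]
    omega
  · have h1 : (pr P : ℤ) * (-(pr S : ℤ)) = -((pr P * pr S : ℕ) : ℤ) := by push_cast; ring
    rw [h1]
    omega
  · rw [habs]
    rw [show (14 : ℕ) = 2 * 7 by norm_num]
    refine Nat.Coprime.mul_right ?_ ?_
    · rw [Nat.coprime_comm, Nat.Prime.coprime_iff_not_dvd Nat.prime_two]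
      omega
    · rw [Nat.coprime_comm, Nat.Prime.coprime_iff_not_dvd (by norm_num)]
      exact h7

theorem weak_gen (hb : Pool.Agent.Y17.N.S_BIL) (ht8 : Pool.Agent.Y17.N.S_T8) (h3 : S_IND3G)
    (hq : S_INDQG) {P S : Finset ℕ} (hP : ∀ p ∈ P, Sp p) (hS : ∀ r ∈ S, In r) (ht : Ty 1 S)
    (hodd : Odd (Yd lres (xrZ (-(pr S : ℤ))) P)) : WB ((pr P : ℤ) * (-(pr S : ℤ))) := by
  obtain ⟨g, y, h1, h2, h3⟩ := exists_gen hb ht8 h3 hq hP hS ht
  refine WB_gen hP hS ht hodd ⟨g, ?_, h3⟩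
  rw [h1]
  refine mul_ne_zero (by positivity) ?_
  rintro rfl
  exact absurd (h2.2 hodd) (by decide)

end Pool.Agent.Y17.G
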